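import Mathlib
import Pool.Agent.Q52.Nil.Defs

set_option autoImplicit false

/-!
# Two limit fixed points on a geometrically irreducible curve

For every finite field `F` the polynomial map `T (x, y) = (y, y + y² (y - 1)² x)` of the affine plane
and the line `Y : x = 0` give an example. `T` contracts the line `y = 0` to the fixed point `(0, 0)`
and the line `y = 1` to the fixed point `(1, 1)`; it is injective outside these two lines, and no point
of `Y` is the image of a point outside the two lines. All geometric points are defined over finite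
fields, so that the orbit of a geometric point of `Y` has to meet one of the two lines. That both
happens for infinitely many geometric points of `Y` is seen from
`b' = b (1 + b (b - 1)² a)`, `b' - 1 = (b - 1) (1 + b² (b - 1) a)` for `(a', b') = T (a, b)`.
-/

namespace Pool.Agent.Results.MP_2dcdad_ag.TwoLimitPoints

open MvPolynomial Q52.Nil

variable {F : Type*} [Field F]

/-- `Y` is geometrically irreducible: it is nonempty and the ideal of the polynomials over the
algebraic closure of `F` which vanish on `Y` is prime. -/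
def IsGeomIrreducible {n : ℕ} (Y : Set (Pt F n)) : Prop :=
  Y.Nonempty ∧ ∀ f g : MvPolynomial (Fin n) (AlgebraicClosure F),
    (∀ Q ∈ Y, eval Q (f * g) = 0) → (∀ Q ∈ Y, eval Q f = 0) ∨ (∀ Q ∈ Y, eval Q g = 0)

/-- The map `T (x, y) = (y, y + y² (y - 1)² x)`. -/
noncomputable def T (F : Type*) [Field F] : Fin 2 → MvPolynomial (Fin 2) F :=
  ![X 1, X 1 + X 1 ^ 2 * (X 1 - 1) ^ 2 * X 0]

theorem act_T (Q : Pt F 2) :
    act (T F) Q = ![Q 1, Q 1 + Q 1 ^ 2 * (Q 1 - 1) ^ 2 * Q 0] := by
  funext i
  fin_cases i <;> simp [act, T]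

theorem geomIrreducible : IsGeomIrreducible {Q : Pt F 2 | Q 0 = 0} := by
  refine ⟨⟨0, by simp⟩, fun f g h => ?_⟩
  set φ : MvPolynomial (Fin 2) (AlgebraicClosure F) →ₐ[AlgebraicClosure F]
    Polynomial (AlgebraicClosure F) := aeval ![0, Polynomial.X] with hφ
  have hev : ∀ (p : MvPolynomial (Fin 2) (AlgebraicClosure F)) (t : AlgebraicClosure F),
      (φ p).eval t = eval ![0, t] p := by
    intro p t
    have : (Polynomial.aeval t).comp φ = aeval ![0, t] := by
      apply MvPolynomial.algHom_ext
      intro i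
      fin_cases i <;> simp [hφ]
    have h2 := DFunLike.congr_fun this p
    simpa [Polynomial.coe_aeval_eq_eval, aeval_eq_eval] using h2
  have hz : φ (f * g) = 0 := by
    apply Polynomial.funext
    intro t
    rw [hev, Polynomial.eval_zero]
    exact h _ (by simp)
  rw [map_mul] at hz
  have key : ∀ p : MvPolynomial (Fin 2) (AlgebraicClosure F), φ p = 0 →
      ∀ Q ∈ {Q : Pt F 2 | Q 0 = 0}, eval Q p = 0 := by
    intro p hp Q hQ
    have hQ' : Q = ![0, Q 1] := by
      funext i
      fin_cases i
      · exact hQ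
      · rfl
    rw [hQ', ← hev, hp, Polynomial.eval_zero]
  rcases mul_eq_zero.1 hz with h1 | h1
  · exact Or.inl (key f h1)
  · exact Or.inr (key g h1)

theorem act_T_of_zero (Q : Pt F 2) (h : Q 1 = 0) : act (T F) Q = ![0, 0] := by
  rw [act_T, h]
  funext i
  fin_cases i <;> simp

theorem act_T_of_one (Q : Pt F 2) (h : Q 1 = 1) : act (T F) Q = ![1, 1] := by
  rw [act_T, h]
  funext i
  fin_cases i <;> simp

theorem fixed_iff (P : Pt F 2) : act (T F) P = P ↔ P = ![0, 0] ∨ P = ![1, 1] := by
  constructor
  · intro h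
    rw [act_T] at h
    have h0 : P 1 = P 0 := by simpa using congrFun h 0
    have h1 : P 1 + P 1 ^ 2 * (P 1 - 1) ^ 2 * P 0 = P 1 := by simpa using congrFun h 1
    rw [← h0] at h1
    have h2 : P 1 ^ 2 * (P 1 - 1) ^ 2 * P 1 = 0 := by simpa using h1
    have h3 : P 1 = 0 ∨ P 1 = 1 := by
      rcases mul_eq_zero.1 h2 with h4 | h4
      · rcases mul_eq_zero.1 h4 with h5 | h5
        · exact Or.inl (pow_eq_zero_iff (two_ne_zero)|>.1 h5)
        · exact Or.inr (sub_eq_zero.1 (pow_eq_zero_iff (two_ne_zero)|>.1 h5))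
      · exact Or.inl h4
    rcases h3 with h3 | h3
    · left
      funext i
      fin_cases i
      · exact h0.symm.trans h3
      · exact h3
    · right
      funext i
      fin_cases i
      · exact h0.symm.trans h3
      · exact h3
  · rintro (rfl | rfl)
    · exact act_T_of_zero _ rfl
    · exact act_T_of_one _ rfl

/-- The coordinates of the `n`-th iterate of `(0, t)`, as polynomials in `t`. -/
noncomputable def ab (K : Type*) [Field K] : ℕ → Polynomial K × Polynomial K
  | 0 => (0, Polynomial.X)
  | (n + 1) => ((ab K n).2, (ab K n).2 + (ab K n).2 ^ 2 * ((ab K n).2 - 1) ^ 2 * (ab K n).1)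

theorem iterate_T (t : AlgebraicClosure F) (n : ℕ) :
    (act (T F))^[n] ![0, t] = ![(ab _ n).1.eval t, (ab _ n).2.eval t] := by
  induction n with
  | zero => simp [ab]
  | succ n ih =>
    rw [Function.iterate_succ_apply', ih, act_T]
    simp [ab]

section degrees

variable {K : Type*} [Field K]

theorem sub_one_natDegree {p : Polynomial K} (h : 0 < p.natDegree) :
    (p - 1).natDegree = p.natDegree := by
  rw [← Polynomial.C_1, Polynomial.natDegree_sub_C]

theorem ne_zero_of_pos {p : Polynomial K} (h : 0 < p.natDegree) : p ≠ 0 := by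
  rintro rfl
  simp at h

theorem ne_zero_of_pos' {p : Polynomial K} (h : 0 < p.natDegree) : p - 1 ≠ 0 :=
  ne_zero_of_pos (by rwa [sub_one_natDegree h])

theorem degree_b (n : ℕ) : 0 < (ab K n).2.natDegree ∧
    (1 ≤ n → 0 < (ab K n).1.natDegree) := by
  induction n with
  | zero => simp [ab]
  | succ n ih =>
    obtain ⟨h1, h2⟩ := ih
    refine ⟨?_, fun _ => by simpa [ab] using h1⟩
    rcases Nat.eq_zero_or_pos n with rfl | hn
    · simp [ab]
    · have ha := h2 hn
      have hlt : (ab K n).2.natDegree <
          ((ab K n).2 ^ 2 * ((ab K n).2 - 1) ^ 2 * (ab K n).1).natDegree := by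
        rw [Polynomial.natDegree_mul (mul_ne_zero (pow_ne_zero _ (ne_zero_of_pos h1))
          (pow_ne_zero _ (ne_zero_of_pos' h1))) (ne_zero_of_pos ha),
          Polynomial.natDegree_mul (pow_ne_zero _ (ne_zero_of_pos h1))
          (pow_ne_zero _ (ne_zero_of_pos' h1)), Polynomial.natDegree_pow,
          Polynomial.natDegree_pow, sub_one_natDegree h1]
        omega
      simp only [ab]
      rw [Polynomial.natDegree_add_eq_right_of_natDegree_lt hlt]
      omega

/-- `b' = b H`. -/
noncomputable def H (K : Type*) [Field K] (n : ℕ) : Polynomial K :=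
  1 + (ab K n).2 * ((ab K n).2 - 1) ^ 2 * (ab K n).1

/-- `b' - 1 = (b - 1) G`. -/
noncomputable def G (K : Type*) [Field K] (n : ℕ) : Polynomial K :=
  1 + (ab K n).2 ^ 2 * ((ab K n).2 - 1) * (ab K n).1

theorem b_succ (n : ℕ) : (ab K (n + 1)).2 = (ab K n).2 * H K n := by
  simp only [ab, H]
  ring

theorem b_succ' (n : ℕ) : (ab K (n + 1)).2 - 1 = ((ab K n).2 - 1) * G K n := by
  simp only [ab, G]
  ring

theorem H_degree {n : ℕ} (hn : 1 ≤ n) : 0 < (H K n).natDegree := by
  have h1 := (degree_b (K := K) n).1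
  have ha := (degree_b (K := K) n).2 hn
  have hlt : 0 < ((ab K n).2 * ((ab K n).2 - 1) ^ 2 * (ab K n).1).natDegree := by
    rw [Polynomial.natDegree_mul (mul_ne_zero (ne_zero_of_pos h1)
          (pow_ne_zero _ (ne_zero_of_pos' h1))) (ne_zero_of_pos ha),
          Polynomial.natDegree_mul (ne_zero_of_pos h1)
          (pow_ne_zero _ (ne_zero_of_pos' h1)),
          Polynomial.natDegree_pow, sub_one_natDegree h1]
    omega
  unfold H
  rw [Polynomial.natDegree_add_eq_right_of_natDegree_lt (by rwa [Polynomial.natDegree_one])]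
  exact hlt

theorem G_degree {n : ℕ} (hn : 1 ≤ n) : 0 < (G K n).natDegree := by
  have h1 := (degree_b (K := K) n).1
  have ha := (degree_b (K := K) n).2 hn
  have hlt : 0 < ((ab K n).2 ^ 2 * ((ab K n).2 - 1) * (ab K n).1).natDegree := by
    rw [Polynomial.natDegree_mul (mul_ne_zero (pow_ne_zero _ (ne_zero_of_pos h1))
          (ne_zero_of_pos' h1)) (ne_zero_of_pos ha),
          Polynomial.natDegree_mul (pow_ne_zero _ (ne_zero_of_pos h1))
          (ne_zero_of_pos' h1),
          Polynomial.natDegree_pow, sub_one_natDegree h1]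
    omega
  unfold G
  rw [Polynomial.natDegree_add_eq_right_of_natDegree_lt (by rwa [Polynomial.natDegree_one])]
  exact hlt

end degrees

theorem exists_root' {K : Type*} [Field K] [IsAlgClosed K] {p : Polynomial K}
    (h : 0 < p.natDegree) : ∃ t, p.eval t = 0 := by
  obtain ⟨t, ht⟩ := IsAlgClosed.exists_root p (by
    intro h0
    rw [Polynomial.natDegree_eq_of_degree_eq_some h0] at h
    exact lt_irrefl _ h)
  exact ⟨t, ht⟩

/-- Infinitely many points of the line reach `(0, 0)`. -/
theorem infinite_zero :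
    {Q : Pt F 2 | Q 0 = 0 ∧ ∃ k, (act (T F))^[k] Q = ![0, 0]}.Infinite := by
  have h : ∀ n : ℕ, ∃ t : AlgebraicClosure F, (H _ (n + 1)).eval t = 0 := fun n =>
    exists_root' (H_degree (by omega))
  choose t ht using h
  have hb : ∀ n, (ab _ (n + 1)).2.eval (t n) ≠ 0 := by
    intro n h0
    have := ht n
    simp [H, h0] at this
  have hb' : ∀ n k, n + 2 ≤ k → (ab _ k).2.eval (t n) = 0 := by
    intro n k hk
    induction k, hk using Nat.le_induction with
    | base => rw [b_succ, Polynomial.eval_mul, ht n, mul_zero]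
    | succ k _ ih => rw [b_succ, Polynomial.eval_mul, ih, zero_mul]
  have hinj : Function.Injective t := by
    intro n m hnm
    rcases lt_trichotomy n m with hlt | rfl | hlt
    · exact absurd (by rw [← hnm]; exact hb' n (m + 1) (by omega)) (hb m)
    · rfl
    · exact absurd (by rw [hnm]; exact hb' m (n + 1) (by omega)) (hb n)
  refine Set.infinite_of_injective_forall_mem (f := fun n => (![0, t n] : Pt F 2)) ?_ ?_
  · intro n m hnm
    exact hinj (by simpa using congrFun hnm 1)
  · intro n
    refine ⟨by simp, n + 3, ?_⟩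
    rw [Function.iterate_succ_apply']
    refine act_T_of_zero _ ?_
    rw [iterate_T]
    simpa using hb' n (n + 2) le_rfl

/-- Infinitely many points of the line reach `(1, 1)`. -/
theorem infinite_one :
    {Q : Pt F 2 | Q 0 = 0 ∧ ∃ k, (act (T F))^[k] Q = ![1, 1]}.Infinite := by
  have h : ∀ n : ℕ, ∃ t : AlgebraicClosure F, (G _ (n + 1)).eval t = 0 := fun n =>
    exists_root' (G_degree (by omega))
  choose t ht using h
  have hb : ∀ n, (ab _ (n + 1)).2.eval (t n) - 1 ≠ 0 := by
    intro n h0
    have := ht n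
    simp [G, h0] at this
  have hb' : ∀ n k, n + 2 ≤ k → (ab _ k).2.eval (t n) - 1 = 0 := by
    intro n k hk
    induction k, hk using Nat.le_induction with
    | base =>
      have := congrArg (Polynomial.eval (t n)) (b_succ' (K := AlgebraicClosure F) (n + 1))
      rw [Polynomial.eval_mul, ht n, mul_zero] at this
      simpa using this
    | succ k _ ih =>
      have := congrArg (Polynomial.eval (t n)) (b_succ' (K := AlgebraicClosure F) k)
      rw [Polynomial.eval_mul, Polynomial.eval_sub, Polynomial.eval_sub, Polynomial.eval_one, ih,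
        zero_mul] at this
      exact this
  have hinj : Function.Injective t := by
    intro n m hnm
    rcases lt_trichotomy n m with hlt | rfl | hlt
    · exact absurd (by rw [← hnm]; exact hb' n (m + 1) (by omega)) (hb m)
    · rfl
    · exact absurd (by rw [hnm]; exact hb' m (n + 1) (by omega)) (hb n)
  refine Set.infinite_of_injective_forall_mem (f := fun n => (![0, t n] : Pt F 2)) ?_ ?_
  · intro n m hnm
    exact hinj (by simpa using congrFun hnm 1)
  · intro n
    refine ⟨by simp, n + 3, ?_⟩
    rw [Function.iterate_succ_apply']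
    refine act_T_of_one _ ?_
    rw [iterate_T]
    simpa using sub_eq_zero.1 (hb' n (n + 2) le_rfl)

/-- **Several limit fixed points on a geometrically irreducible subvariety.** For every finite field
`F`, the polynomial map `T (x, y) = (y, y + y² (y - 1)² x)` of the affine plane over `F` has exactly
two fixed geometric points, `(0, 0)` and `(1, 1)`; every geometric point of the geometrically
irreducible subvariety `Y : x = 0` is mapped to one of them by an iterate of `T`, and each of the two
is reached by infinitely many geometric points of `Y`. -/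
theorem result (F : Type*) [Field F] [Finite F] :
    ∃ (T : Fin 2 → MvPolynomial (Fin 2) F) (Y : Set (Pt F 2)),
      T = ![X 1, X 1 + X 1 ^ 2 * (X 1 - 1) ^ 2 * X 0] ∧ Y = {Q | Q 0 = 0} ∧
      IsSubvariety Y ∧ IsGeomIrreducible Y ∧
      (∀ P : Pt F 2, act T P = P ↔ P = ![0, 0] ∨ P = ![1, 1]) ∧
      (∀ Q ∈ Y, ∃ k, 1 ≤ k ∧ ((act T)^[k] Q = ![0, 0] ∨ (act T)^[k] Q = ![1, 1])) ∧
      {Q ∈ Y | ∃ k, (act T)^[k] Q = ![0, 0]}.Infinite ∧
      {Q ∈ Y | ∃ k, (act T)^[k] Q = ![1, 1]}.Infinite := by
  refine ⟨T F, {Q | Q 0 = 0}, rfl, rfl, ⟨{X 0}, by simp⟩, geomIrreducible, fixed_iff, ?_,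
    infinite_zero, infinite_one⟩
  intro Q hQ
  obtain ⟨S, hS, hQS, hT⟩ := exists_finite_invariant Q
  obtain ⟨k, hk⟩ := exists_iterate_mem (act (T F)) S {R | R 1 = 0 ∨ R 1 = 1} hS (hT _) (by
    intro x hx y hy h
    rw [act_T, act_T] at h
    have h0 : x 1 = y 1 := by simpa using congrFun h 0
    have h1 : x 1 + x 1 ^ 2 * (x 1 - 1) ^ 2 * x 0 = y 1 + y 1 ^ 2 * (y 1 - 1) ^ 2 * y 0 := by
      simpa using congrFun h 1
    have hx1 : x 1 ≠ 0 := fun h => hx.2 (Or.inl h)
    have hx2 : x 1 - 1 ≠ 0 := fun h => hx.2 (Or.inr (sub_eq_zero.1 h))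
    rw [← h0] at h1
    have h2 : x 0 = y 0 := by
      have h3 := add_left_cancel h1
      exact mul_left_cancel₀ (mul_ne_zero (pow_ne_zero _ hx1) (pow_ne_zero _ hx2)) h3
    funext i
    fin_cases i
    · exact h2
    · exact h0) Q hQS (by
    intro x hx h
    rw [act_T] at h
    have h0 : x 1 = Q 0 := by simpa using congrFun h 0
    exact hx.2 (Or.inl (h0.trans hQ)))
  refine ⟨k + 1, by omega, ?_⟩
  rw [Function.iterate_succ_apply']
  rcases hk with hk | hk
  · exact Or.inl (act_T_of_zero _ hk)
  · exact Or.inr (act_T_of_one _ hk)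

end Pool.Agent.Results.MP_2dcdad_ag.TwoLimitPoints
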